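import Pool.Agent.TH346.CG.Defs

/-!
# GSC-EN: energy from a triple count
-/

open Finset
open scoped Pointwise

namespace Pool.Agent.TH674.CG

open Pool.Agent.TH346.CG

theorem energy {Γ : Type} [AddCommGroup Γ] [DecidableEq Γ] (X : Finset Γ) (t : Γ) (q : ℕ)
    (h : X.card ^ 3 ≤
      q * (((X ×ˢ X) ×ˢ X).filter (fun p => p.1.1 + p.1.2 + p.2 + t ∈ X)).card) :
    X.card ^ 3 ≤ q * X.addEnergy X := by
  classical
  refine le_trans h (Nat.mul_le_mul_left q ?_)
  set r : Γ → ℕ := fun s => ((X ×ˢ X).filter (fun p => p.1 + p.2 = s)).card with hr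
  set g : Γ → ℕ := fun s => (X.filter (fun z => s + z + t ∈ X)).card with hg
  have hT : (((X ×ˢ X) ×ˢ X).filter (fun p => p.1.1 + p.1.2 + p.2 + t ∈ X)).card
      = ∑ s ∈ X + X, r s * g s := by
    have h1 : (((X ×ˢ X) ×ˢ X).filter (fun p => p.1.1 + p.1.2 + p.2 + t ∈ X)).card
        = ∑ p ∈ X ×ˢ X, g (p.1 + p.2) := by
      rw [Finset.card_filter, Finset.sum_product]
      refine Finset.sum_congr rfl (fun p _ => ?_)
      simp only [hg]
      rw [Finset.card_filter]
    rw [h1]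
    have hmaps : ∀ p ∈ X ×ˢ X, p.1 + p.2 ∈ X + X := by
      intro p hp
      rw [Finset.mem_product] at hp
      exact Finset.add_mem_add hp.1 hp.2
    rw [← Finset.sum_fiberwise_of_maps_to hmaps]
    refine Finset.sum_congr rfl (fun s _ => ?_)
    rw [Finset.sum_congr rfl (g := fun _ => g s)]
    · simp only [hr, Finset.sum_const, smul_eq_mul]
    · intro p hp
      rw [(Finset.mem_filter.1 hp).2]
  have h1 : ∑ s ∈ X + X, r s ^ 2 = X.addEnergy X := by
    rw [Finset.addEnergy_eq_sum_sq']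
  have h2 : ∑ s ∈ X + X, g s ^ 2 ≤ X.addEnergy X := by
    have e1 : ∑ s ∈ X + X, g s ^ 2 =
        ((X + X).sigma (fun s => (X.filter (fun z => s + z + t ∈ X)) ×ˢ
          (X.filter (fun z => s + z + t ∈ X)))).card := by
      rw [Finset.card_sigma]
      refine Finset.sum_congr rfl (fun s _ => ?_)
      rw [Finset.card_product, sq]
    rw [e1, Finset.addEnergy]
    refine Finset.card_le_card_of_injOn
      (fun p => ((p.1 + p.2.1 + t, p.1 + p.2.2 + t), (p.2.2, p.2.1))) ?_ ?_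
    · rintro ⟨s, z, z'⟩ hp
      simp only [Finset.coe_sigma, Set.mem_sigma_iff, Finset.mem_coe, Finset.mem_product,
        Finset.mem_filter] at hp ⊢
      obtain ⟨_, ⟨hz, hz1⟩, hz', hz'1⟩ := hp
      refine ⟨⟨⟨hz1, hz'1⟩, hz', hz⟩, ?_⟩
      abel
    · rintro ⟨s, z, z'⟩ _ ⟨s2, y, y'⟩ _ hxy
      simp only [Prod.mk.injEq] at hxy
      obtain ⟨⟨ha, hb⟩, hc, hd⟩ := hxy
      subst hc
      subst hd
      have : s = s2 := by
        have := add_right_cancel ha
        exact add_right_cancel this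
      subst this
      rfl
  rw [hT]
  have h3 : 2 * ∑ s ∈ X + X, r s * g s ≤ ∑ s ∈ X + X, r s ^ 2 + ∑ s ∈ X + X, g s ^ 2 := by
    rw [Finset.mul_sum, ← Finset.sum_add_distrib]
    refine Finset.sum_le_sum (fun s _ => ?_)
    have := two_mul_le_add_sq (r s) (g s)
    linarith
  omega

end Pool.Agent.TH674.CG
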